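import Pool.Agent.J4H43.MW.Stm

/-!
# Families in several weights: assembly
-/

set_option autoImplicit false
set_option linter.unusedSectionVars false

namespace Pool.Agent.J4H43.MW

open Polynomial Pool.Agent.Helper392_GT Pool.Agent.J4H43.FR Pool.Agent.J4H43.SW

universe u

attribute [local instance 100] LieRing.ofAssociativeRing

section asm

variable {k : Type u} [Field k] {r : ℕ}

theorem hs_wc {d : ℕ} {σ : F2 k} {n s : ℕ} (hσ : σ ∈ wt k n) {v : FreeMonoid ℕ}
    (h : wc v (hs d σ n s) ≠ 0) : v.length = d ∧ (FreeMonoid.toList v).sum = s := by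
  rw [hs] at h
  split_ifs at h with hle
  · rw [wc_hc] at h
    by_cases hl : v.length = d
    · rw [if_pos hl] at h
      have := t_SW3 k n σ hσ _ v h
      exact ⟨hl, by omega⟩
    · rw [if_neg hl] at h
      exact absurd rfl h
  · exact absurd (map_zero _) h

theorem hs_Hm (d : ℕ) (σ : F2 k) (n s : ℕ) : Hm d (hs d σ n s) := by
  rw [hs]
  split_ifs
  · exact Hm_hc _ _
  · exact Hm.zero _

/-- the coefficient of `z^a`, for `a ≤ N - d` -/
theorem shift_coeff {d N n : ℕ} {σ : F2 k} (hN : n ≤ N) (hdN : d ≤ N) {a : ℕ}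
    (ha : a ≤ N - d) : hc d ((X ^ (N - n) * Ph σ).coeff a) = hs d σ n (N - d - a) := by
  rw [coeff_X_pow_mul', hs]
  by_cases h : N - n ≤ a
  · rw [if_pos h, if_pos (by omega)]
    congr 2
    omega
  · rw [if_neg h, if_neg (by omega), map_zero]

theorem shift_top {d N n : ℕ} {σ : F2 k} (hσ : σ ∈ wt k n) (hN : n ≤ N) {a : ℕ}
    (ha : N - d < a) (hdn : d ≤ n) : hc d ((X ^ (N - n) * Ph σ).coeff a) = 0 := by
  rw [coeff_X_pow_mul', if_pos (by omega)]
  refine wc_ext fun v => ?_
  rw [wc_hc]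
  split_ifs with hl
  · by_contra hne
    have := t_SW3 k n σ hσ _ v hne
    omega
  · rfl

theorem sym_mw {d N : ℕ} {σ : Fin r → F2 k} {n : Fin r → ℕ} {c : Fin r → k} {s : ℕ}
    (hσ : ∀ j, σ j ∈ wt k (n j)) (hdep : ∀ j, DepthGE k d (σ j)) (hN : ∀ j, n j ≤ N)
    (hdn : ∀ j, d ≤ n j) (hlow : ∀ s', s' < s → ∑ j, c j • hs d (σ j) (n j) s' = 0)
    (hb : ∀ j, c j ≠ 0 → s + d < n j) (hsN : s + d ≤ N) :
    HasSym (∑ j, c j • (LinearMap.mulLeft k (X ^ (N - n j)) ∘ₗ rr (σ j))) d (N - d - s)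
      (-∑ j, c j • hs d (σ j) (n j) s) := by
  set Ψ : (BB k)[X] := ∑ j, c j • (X ^ (N - n j) * Ph (σ j)) with hΨ
  set T : Module.End k (BB k)[X] :=
    ∑ j, c j • (LinearMap.mulLeft k (X ^ (N - n j)) ∘ₗ cq (dh (σ j))) with hT
  have hTa : ∀ F, T F = ∑ j, c j • (X ^ (N - n j) * cq (dh (σ j)) F) := fun F => by
    rw [hT, LinearMap.sum_apply]; rfl
  have hcΨ : ∀ j' a, hc j' (Ψ.coeff a) =
      ∑ j, c j • hc j' ((X ^ (N - n j) * Ph (σ j)).coeff a) := fun j' a => by
    rw [hΨ, finsetSum_coeff, map_sum]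
    exact Finset.sum_congr rfl fun j _ => by rw [coeff_smul, map_smul]
  have hcT : ∀ F j' a, hc j' ((T F).coeff a) =
      ∑ j, c j • hc j' ((X ^ (N - n j) * cq (dh (σ j)) F).coeff a) := fun F j' a => by
    rw [hTa, finsetSum_coeff, map_sum]
    exact Finset.sum_congr rfl fun j _ => by rw [coeff_smul, map_smul]
  have hval : ∀ a, a ≤ N - d → hc d (Ψ.coeff a) =
      ∑ j, c j • hs d (σ j) (n j) (N - d - a) := fun a ha => by
    rw [hcΨ]
    exact Finset.sum_congr rfl fun j _ => by rw [shift_coeff (hN j) (by omega) ha]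
  have hsy : Sy d (N - d - s) Ψ := by
    refine ⟨fun j' hj' a => ?_, fun a ha => ?_⟩
    · rw [hcΨ]
      refine Finset.sum_eq_zero fun j _ => ?_
      rw [coeff_X_pow_mul']
      split_ifs
      · rw [Ph_mem (hdep j) j' hj', smul_zero]
      · rw [map_zero, smul_zero]
    · by_cases h : a ≤ N - d
      · rw [hval a h]
        exact hlow _ (by omega)
      · rw [hcΨ]
        exact Finset.sum_eq_zero fun j _ => by
          rw [shift_top (hσ j) (hN j) (by omega) (hdn j), smul_zero]
  have hlowT : Low T d (N - d - s) := by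
    intro p m F hF
    refine ⟨fun j' hj' a => ?_, fun a ha => ?_⟩
    · rw [hcT]
      refine Finset.sum_eq_zero fun j _ => ?_
      rw [coeff_X_pow_mul']
      split_ifs
      · rw [(Low_cq (hdep j) (e := 1) le_rfl p m F hF).1 j' hj', smul_zero]
      · rw [map_zero, smul_zero]
    · rw [hcT]
      refine Finset.sum_eq_zero fun j _ => ?_
      by_cases hcj : c j = 0
      · rw [hcj, zero_smul]
      · have h1 := hb j hcj
        have h2 := hN j
        rw [coeff_X_pow_mul']
        split_ifs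
        · rw [(Low_cq (hdep j) (e := 1) le_rfl p m F hF).2 _ (by omega), smul_zero]
        · rw [map_zero, smul_zero]
  have h1 := HasSym_of hlowT hsy
  have h2 : T - LinearMap.mulLeft k Ψ =
      ∑ j, c j • (LinearMap.mulLeft k (X ^ (N - n j)) ∘ₗ rr (σ j)) := by
    refine LinearMap.ext fun F => ?_
    rw [LinearMap.sub_apply, hTa, LinearMap.sum_apply, LinearMap.mulLeft_apply, hΨ,
      Finset.sum_mul, ← Finset.sum_sub_distrib]
    refine Finset.sum_congr rfl fun j _ => ?_
    rw [LinearMap.smul_apply, LinearMap.comp_apply, LinearMap.mulLeft_apply, rr_apply, mul_sub,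
      smul_sub, smul_mul_assoc, mul_assoc]
  rw [h2, hval (N - d - s) (by omega), show N - d - (N - d - s) = s by omega] at h1
  exact h1

theorem Rs_word_fam {P : Fin r → Module.End k (BB k)[X]} {d : ℕ}
    (hP : ∀ i, Rs (Fz k) d (P i)) (w : FreeMonoid (Fin r)) :
    Rs (Fz k) (w.length * d) (FreeMonoid.lift P w) := by
  induction w using FreeMonoid.recOn with
  | one => rw [MonoidHom.map_one, FreeMonoid.length_one, zero_mul]; exact Rs.one
  | of_mul i w ih =>
    rw [word_mul, FreeMonoid.length_mul, FreeMonoid.length_of, add_mul, one_mul]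
    exact (hP i).mul ih

theorem lift_mem_fam {P : Fin r → Module.End k (BB k)[X]} {d : ℕ}
    (hP : ∀ i, Rs (Fz k) d (P i)) {M : ℕ} {g : FreeAlgebra k (Fin r)}
    (hg : ∀ u, wc u g ≠ 0 → M ≤ u.length) :
    FreeAlgebra.lift k P g 1 ∈ Fz k (M * d) := by
  rw [lift_one_fam, Finsupp.sum]
  refine Submodule.sum_mem _ fun w hw => Submodule.smul_mem _ _ ?_
  have h1 := hg w (Finsupp.mem_support_iff.mp hw)
  have h2 := Rs_word_fam hP w 0 1 (Fz_zero _)
  rw [zero_add] at h2
  exact Fz_anti (Nat.mul_le_mul_right d h1) h2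

theorem no_drop_mw [CharZero k] (van : S_VAN.{u}) (ad : S_AD.{u}) (ev : S_EV.{u}) {d : ℕ}
    {σ : Fin r → F2 k} {n : Fin r → ℕ} {W : Finset ℕ} (hd : 1 ≤ d)
    (hσ : ∀ j, σ j ∈ wt k (n j)) (hn2 : ∀ j, 2 ≤ n j) (hdep : ∀ j, DepthGE k d (σ j))
    (hnW : ∀ j, n j ∈ W) (hW : ∀ j, W.card * d < n j)
    (hli : ∀ c : Fin r → k, DepthGE k (d + 1) (∑ j, c j • σ j) → c = 0)
    {D : Fin r → LieDerivation k (F2 k) (F2 k)} (hD : ∀ i, IsIharaDer (D i) (σ i))
    {R : FreeLieAlgebra k (Fin r)} {w : FreeMonoid (Fin r)} (hR : wc w (toA k r R) ≠ 0)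
    {h : F2 k} (hh : FreeLieAlgebra.lift k D R (gy k) = ⁅gy k, h⁆) :
    ¬ DepthGE k (w.length * d + 1) h := by
  classical
  intro hdrop
  set T : ℕ → (Fin r → k) →ₗ[k] BB k := fun s =>
    Fintype.linearCombination k (fun j => hs d (σ j) (n j) s) with hT
  have hTa : ∀ s c, T s c = ∑ j, c j • hs d (σ j) (n j) s := fun s c => rfl
  obtain ⟨M, M', s, hM1, hM2, hlow, hind, hb, hb'⟩ := ad k r d T n
    (by
      intro s c v hv
      rw [hTa, map_sum] at hv
      obtain ⟨j, _, hj⟩ := Finset.exists_ne_zero_of_sum_ne_zero hv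
      rw [map_smul] at hj
      exact (hs_wc (hσ j) (right_ne_zero_of_smul hj)).2)
    (by
      intro c hc
      obtain ⟨s, h1, h2, h3⟩ := van k r d σ n W hd hσ hn2 hdep hnW hW hli c hc
      exact ⟨s, fun s' hs' => by rw [hTa]; exact h1 s' hs', by rw [hTa]; exact h2, h3⟩)
  obtain ⟨N, hN⟩ : ∃ N, ∀ j, n j ≤ N :=
    ⟨Finset.univ.sup n, fun j => Finset.le_sup (Finset.mem_univ j)⟩
  have hdn : ∀ j, d ≤ n j := by
    intro j
    have h1 : 1 ≤ W.card := Finset.card_pos.mpr ⟨_, hnW j⟩
    have h2 : 1 * d ≤ W.card * d := Nat.mul_le_mul_right d h1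
    have := hW j
    omega
  have hsN : ∀ i, s i + d ≤ N := by
    intro i
    -- column `i` of `M'` is nonzero
    obtain ⟨j, hj⟩ : ∃ j, M' j i ≠ 0 := by
      by_contra hcon
      push Not at hcon
      have h1 := congrFun (congrFun hM1 i) i
      rw [Matrix.mul_apply, Matrix.one_apply_eq] at h1
      rw [Finset.sum_eq_zero (fun j _ => by rw [hcon j, mul_zero])] at h1
      exact zero_ne_one h1
    have h1 := hb' j i hj
    have h2 := hN j
    omega
  set g := toA k r R with hg
  have hex : ∃ m, hc m g ≠ 0 := by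
    refine ⟨w.length, fun h0 => hR ?_⟩
    have h1 := wc_hc w w.length g
    rw [if_pos rfl, h0, map_zero] at h1
    exact h1.symm
  set m := Nat.find hex with hm
  have hm0 : hc m g ≠ 0 := Nat.find_spec hex
  have hmlt : ∀ j, j < m → hc j g = 0 := fun j hj => by
    by_contra h0
    exact Nat.find_min hex hj h0
  have hmw : m ≤ w.length := by
    by_contra hlt
    apply hR
    have h1 := wc_hc w w.length g
    rw [if_pos rfl, hmlt _ (by omega), map_zero] at h1
    exact h1.symm
  have hm1 : 1 ≤ m := by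
    by_contra hlt
    have h0 : m = 0 := by omega
    apply hm0
    rw [h0, hc_zero_eq, ← wc_one, eps_toA, map_zero]
  apply hm0
  refine ev k r d N (fun i => rr (σ i)) n s M M' (fun i => -T (s i) (M i)) hd hM1 hM2
    (fun i F => rr_xh (σ i) F) hN (fun i => ?_) (fun G hG => ?_) hb' (hc m g) m hm1
    (Hm_hc _ _) ?_
  · exact sym_mw hσ hdep hN hdn (fun s' hs' => hlow i s' hs') (hb i) (hsN i)
  · refine t_SW1 k r d hd _ (fun i => ?_) ?_ G hG
    · refine Hm.neg ?_
      rw [hTa]
      exact Finset.sum_induction _ (fun x => Hm d x) (fun _ _ ha hb => ha.add hb) (Hm.zero _)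
        (fun j _ => (hs_Hm d (σ j) (n j) _).smul _)
    · intro c hc0
      apply hind
      simp only [smul_neg, Finset.sum_neg_distrib, neg_eq_zero] at hc0
      exact hc0
  · intro a ha
    have hdiff : FreeAlgebra.lift k (fun i => rr (σ i)) (g - hc m g) 1 ∈
        Fz k ((m + 1) * d) := by
      refine lift_mem_fam (fun i => Rs_rr (hdep i)) fun u hu => ?_
      by_contra hlt
      apply hu
      rw [map_sub, wc_hc]
      split_ifs with hl
      · exact sub_self _
      · rw [sub_zero]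
        have h1 := wc_hc u u.length g
        rw [if_pos rfl, hmlt _ (by omega), map_zero] at h1
        exact h1.symm
    have h1 := hdiff (m * d) (by rw [add_mul]; omega) a
    have h2 := t_SW5 k r σ D hD R h hh (m * d)
      (depth_mono (Nat.succ_le_succ (Nat.mul_le_mul_right d hmw)) hdrop) a ha
    rw [map_sub (FreeAlgebra.lift k _), LinearMap.sub_apply, coeff_sub, map_sub, h2,
      zero_sub, neg_eq_zero] at h1
    exact h1

end asm

end Pool.Agent.J4H43.MW
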