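import Pool.Agent.J4H43.MW.Asm
import Pool.Agent.J4H43.SW.Fin
import Pool.Agent.J4H57.SW.Sw2
import Pool.Agent.J4H57.SW.Sw4

/-!
# Elements of several weights and the same depth
-/

set_option autoImplicit false
set_option linter.unusedSectionVars false

namespace Pool.Agent.J4H43.MW

open Polynomial Pool.Agent.Helper392_GT Pool.Agent.J4H43.FR Pool.Agent.J4H43.SW

universe u

attribute [local instance 100] LieRing.ofAssociativeRing

section fin

variable {k : Type u} [Field k] [CharZero k] {r : ℕ}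

theorem two_le_weight {σ : F2 k} {n : ℕ} (hσ : IsGRT k σ) (hw : σ ∈ wt k n) (h0 : σ ≠ 0) :
    2 ≤ n := by
  obtain ⟨d, e, l⟩ := exists_Ld hσ h0
  have hne : (Ph σ).coeff e ≠ 0 := fun h => l.ne (by rw [h, map_zero])
  obtain ⟨v, hv⟩ : ∃ v, wc v ((Ph σ).coeff e) ≠ 0 := by
    by_contra hcon
    push Not at hcon
    exact hne (wc_ext hcon)
  have h1 := t_SW3 k n σ hw e v hv
  have := l.e2
  omega

theorem no_drop_all (van : S_VAN.{u}) (ad : S_AD.{u}) (ev : S_EV.{u}) {d : ℕ}
    {σ : Fin r → F2 k} {n : Fin r → ℕ} (hσ : ∀ i, IsGRT k (σ i)) (hw : ∀ i, σ i ∈ wt k (n i))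
    (hn : (Finset.univ.image n).card ≤ 1 ∨ ∀ i, (Finset.univ.image n).card * d < n i)
    (hdep : ∀ i, DepthGE k d (σ i))
    (hli : ∀ c : Fin r → k, DepthGE k (d + 1) (∑ i, c i • σ i) → c = 0)
    {D : Fin r → LieDerivation k (F2 k) (F2 k)} (hD : ∀ i, IsIharaDer (D i) (σ i))
    {R : FreeLieAlgebra k (Fin r)} {w : FreeMonoid (Fin r)} (hR : wc w (toA k r R) ≠ 0)
    {h : F2 k} (hh : FreeLieAlgebra.lift k D R (gy k) = ⁅gy k, h⁆) :
    ¬ DepthGE k (w.length * d + 1) h := by
  classical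
  rcases hn with hn | hn
  · obtain ⟨n0, hn0⟩ : ∃ n0, ∀ i, n i = n0 := by
      by_cases hr : Nonempty (Fin r)
      · obtain ⟨i0⟩ := hr
        exact ⟨n i0, fun i => Finset.card_le_one.mp hn _
          (Finset.mem_image_of_mem n (Finset.mem_univ i)) _
          (Finset.mem_image_of_mem n (Finset.mem_univ i0))⟩
      · exact ⟨0, fun i => absurd ⟨i⟩ hr⟩
    exact no_drop_fam t_SW1 t_SW3 Pool.Agent.J4H57.SW.t_SW4 t_SW5 hσ
      (fun i => hn0 i ▸ hw i) hdep hli hD hR hh
  · have hnz : ∀ i, ¬ DepthGE k (d + 1) (σ i) := by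
      intro i hi
      have e1 : ∑ l, (Pi.single i (1 : k) : Fin r → k) l • σ l = σ i := by
        rw [Finset.sum_eq_single i]
        · rw [Pi.single_eq_same, one_smul]
        · intro l _ hl
          rw [Pi.single_eq_of_ne hl, zero_smul]
        · intro h; exact absurd (Finset.mem_univ _) h
      have e2 := hli (Pi.single i 1) (by rw [e1]; exact hi)
      have e3 := congrFun e2 i
      rw [Pi.single_eq_same] at e3
      exact one_ne_zero e3
    have h0 : ∀ i, σ i ≠ 0 := by
      intro i h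
      apply hnz i
      rw [h]; exact DepthGE.zero _
    have hd1 : 1 ≤ d := by
      induction w using FreeMonoid.casesOn with
      | one => exact absurd (eps_toA R) hR
      | of_mul i w =>
        obtain ⟨d', e, l⟩ := exists_Ld (hσ i) (h0 i)
        obtain rfl := depth_unique (hdep i) (hnz i) l.dep l.not
        exact l.d1
    exact no_drop_mw van ad ev hd1 hw (fun i => two_le_weight (hσ i) (hw i) (h0 i)) hdep
      (fun i => Finset.mem_image_of_mem n (Finset.mem_univ i)) hn hli hD hR hh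

theorem inj_all (van : S_VAN.{u}) (ad : S_AD.{u}) (ev : S_EV.{u}) {d : ℕ}
    {σ : Fin r → F2 k} {n : Fin r → ℕ} (hσ : ∀ i, IsGRT k (σ i)) (hw : ∀ i, σ i ∈ wt k (n i))
    (hn : (Finset.univ.image n).card ≤ 1 ∨ ∀ i, (Finset.univ.image n).card * d < n i)
    (hdep : ∀ i, DepthGE k d (σ i))
    (hli : ∀ c : Fin r → k, DepthGE k (d + 1) (∑ i, c i • σ i) → c = 0)
    {D : Fin r → LieDerivation k (F2 k) (F2 k)} (hD : ∀ i, IsIharaDer (D i) (σ i)) :
    Function.Injective (FreeLieAlgebra.lift k D) := by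
  rw [injective_iff_map_eq_zero]
  intro R hR
  apply Pool.Agent.J4H57.SW.t_SW2 k r
  refine wc_ext fun w => ?_
  by_contra hw0
  refine no_drop_all van ad ev hσ hw hn hdep hli hD hw0 (h := 0) ?_ (DepthGE.zero _)
  rw [hR, lie_zero]; rfl

end fin

end Pool.Agent.J4H43.MW
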