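import Pool.Agent.J4H43.MW.Stm

/-!
# A lower bound for the leading exponent
-/

set_option autoImplicit false
set_option linter.unusedSectionVars false

namespace Pool.Agent.J4H43.MW

open Polynomial Pool.Agent.Helper392_GT Pool.Agent.J4H43.FR Pool.Agent.J4H43.SW

universe u

attribute [local instance 100] LieRing.ofAssociativeRing

theorem t_KB (hl : S_HL.{u}) (ll : S_LL.{u}) (td : S_TD.{u}) (rep : S_REP.{u}) : S_KB.{u} := by
  classical
  intro k _ _ w d f hf hw hd hnd
  obtain ⟨c, P, hP, hc0, hwt⟩ := rep k w f hf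
  rw [hc0 (by omega), zero_smul, zero_add] at hP
  have hPh : Ph f = Eh k (toN k P) 1 := by
    have : Ph f = rs f 1 := rfl
    rw [this, hP]
  set p := toN k P with hp
  have hpart : ∀ j a, hc j ((Ph f).coeff a) = hc j ((Eh k (hc j p) 1).coeff a) := by
    intro j a
    obtain ⟨N, hN⟩ := sum_hc p
    have h1 := (hN (max N (j + 1)) (le_max_left _ _)).1
    rw [hPh]
    nth_rewrite 1 [← h1]
    rw [map_sum, LinearMap.sum_apply, finsetSum_coeff, map_sum, Finset.sum_eq_single j]
    · intro n _ hn
      by_cases h0 : hc n p = 0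
      · rw [h0, map_zero, LinearMap.zero_apply, coeff_zero, map_zero]
      · exact (td k n (hc n p) (Hm_hc _ _) h0).1 j a (Ne.symm hn)
    · intro h
      exact absurd (Finset.mem_range.mpr (by omega)) h
  have hne : hc d p ≠ 0 := by
    intro h0
    apply hnd
    apply depth_of_Ph
    intro j hj a
    by_cases hjd : j = d
    · rw [hjd, hpart, h0, map_zero, LinearMap.zero_apply, coeff_zero, map_zero]
    · exact Ph_mem hd j (by omega) a
  obtain ⟨v, hv⟩ : ∃ v, wc v (hc d p) ≠ 0 := by
    by_contra hcon
    push Not at hcon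
    exact hne (wc_ext hcon)
  have hvl : v.length = d ∧ wc v p ≠ 0 := by
    rw [wc_hc] at hv
    by_cases hl : v.length = d
    · rw [if_pos hl] at hv
      exact ⟨hl, hv⟩
    · rw [if_neg hl] at hv
      exact absurd rfl hv
  have hvw := hwt v hvl.2
  have hd1 : 1 ≤ d := by
    by_contra hlt
    have hd0 : d = 0 := by omega
    rw [hd0] at hvl
    induction v using FreeMonoid.casesOn with
    | one =>
      have h2 : (FreeMonoid.toList (1 : FreeMonoid ℕ)).sum = 0 := by simp [FreeMonoid.toList_one]
      rw [h2, FreeMonoid.length_one] at hvw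
      omega
    | of_mul a v =>
      have h3 := hvl.1
      rw [FreeMonoid.length_mul, FreeMonoid.length_of] at h3
      omega
  have hsupp : (lq (hc d p)).support.Nonempty := by
    rw [Finsupp.support_nonempty_iff]
    intro h0
    apply hne
    refine eq_zero_of_lq ((Hm_hc d p).eps_zero hd1) fun y => ?_
    rw [h0, Finsupp.zero_apply]
  obtain ⟨A, hA, hmax⟩ := Finset.exists_max_image _ (fun a => a) hsupp
  have hA0 : lq (hc d p) A ≠ 0 := Finsupp.mem_support_iff.mp hA
  have hA1 : ∀ a, A < a → lq (hc d p) a = 0 := by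
    intro a ha
    by_contra hcon
    have := hmax a (Finsupp.mem_support_iff.mpr hcon)
    omega
  obtain ⟨t1, -, t3⟩ := td k d (hc d p) (Hm_hc _ _) hne
  refine ⟨A, ?_, ?_⟩
  · rw [hpart]
    intro h0
    apply t3 A hA1 hA0
    refine eq_zero_of_hc fun j => ?_
    by_cases hj : j = d
    · rw [hj]; exact h0
    · exact t1 j A hj
  · obtain ⟨P', hP'⟩ := hl k P d
    have hle := ll k P' d A hd1 (by rw [hP']; exact Hm_hc _ _) (by rw [hP']; exact hA1) v
      (by rw [hP']; exact hv)
    have hsum : (FreeMonoid.toList v).sum ≤ v.length * A := by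
      have := List.sum_le_card_nsmul (FreeMonoid.toList v) A hle
      rwa [smul_eq_mul] at this
    rw [hvl.1] at hsum hvw
    have : (A + 1) * d = d * A + d := by ring
    omega

end Pool.Agent.J4H43.MW
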