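import Pool.Agent.J4H43.SW.Gen

/-!
# Families in several weights: statements
-/

set_option autoImplicit false

namespace Pool.Agent.J4H43.MW

open Polynomial Pool.Agent.Helper392_GT Pool.Agent.J4H43.FR Pool.Agent.J4H43.SW

universe u

attribute [local instance 100] LieRing.ofAssociativeRing

/-- the map from the free Lie algebra to the free associative algebra -/
noncomputable def toN (k : Type u) [Field k] : FreeLieAlgebra k ℕ →ₗ⁅k⁆ BB k :=
  FreeLieAlgebra.lift k (FreeAlgebra.ι k)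

/-- the letter `e_a` acts as `ad(x)^a y` on the polynomials in `z` -/
noncomputable def Eh (k : Type u) [Field k] : BB k →ₐ[k] Module.End k (BB k)[X] :=
  FreeAlgebra.lift k (fun a => rs (vm k a))

/-- homogeneous parts of Lie elements are Lie elements -/
def S_HL : Prop := ∀ (k : Type u) [Field k] (P : FreeLieAlgebra k ℕ) (d : ℕ),
    ∃ P' : FreeLieAlgebra k ℕ, toN k P' = hc d (toN k P)

/-- the largest letter of a Lie element occurs as a first letter -/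
def S_LL : Prop := ∀ (k : Type u) [Field k] [CharZero k] (P : FreeLieAlgebra k ℕ) (d A : ℕ)
    (_ : 1 ≤ d) (_ : Hm d (toN k P)) (_ : ∀ a, A < a → lq (toN k P) a = 0)
    (v : FreeMonoid ℕ) (_ : wc v (toN k P) ≠ 0), ∀ a ∈ FreeMonoid.toList v, a ≤ A

/-- the leading exponent of `z` -/
def S_TD : Prop := ∀ (k : Type u) [Field k] (m : ℕ) (q : BB k) (_ : Hm m q) (_ : q ≠ 0),
    (∀ j a, j ≠ m → hc j ((Eh k q 1).coeff a) = 0) ∧ Eh k q 1 ≠ 0 ∧
    ∀ A, (∀ a, A < a → lq q a = 0) → lq q A ≠ 0 → (Eh k q 1).coeff A ≠ 0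

/-- elimination of `x` -/
def S_REP : Prop := ∀ (k : Type u) [Field k] (n : ℕ) (f : F2 k) (_ : f ∈ wt k n),
    ∃ (c : k) (P : FreeLieAlgebra k ℕ), rs f = c • xh + Eh k (toN k P) ∧ (n ≠ 1 → c = 0) ∧
      ∀ v : FreeMonoid ℕ, wc v (toN k P) ≠ 0 → v.length + (FreeMonoid.toList v).sum = n

/-- a lower bound for the leading exponent -/
def S_KB : Prop := ∀ (k : Type u) [Field k] [CharZero k] (w d : ℕ) (f : F2 k)
    (_ : f ∈ wt k w) (_ : 2 ≤ w) (_ : DepthGE k d f) (_ : ¬ DepthGE k (d + 1) f),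
    ∃ e, hc d ((Ph f).coeff e) ≠ 0 ∧ w ≤ (e + 1) * d

/-- the part of length `d` and index sum `s` -/
noncomputable def hs {k : Type u} [Field k] (d : ℕ) (σ : F2 k) (n s : ℕ) : BB k :=
  if s + d ≤ n then hc d ((Ph σ).coeff (n - d - s)) else 0

/-- leading index sums of combinations of elements of several weights -/
def S_VAN : Prop := ∀ (k : Type u) [Field k] [CharZero k] (r d : ℕ) (σ : Fin r → F2 k)
    (n : Fin r → ℕ) (W : Finset ℕ) (_ : 1 ≤ d) (_ : ∀ j, σ j ∈ wt k (n j)) (_ : ∀ j, 2 ≤ n j)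
    (_ : ∀ j, DepthGE k d (σ j)) (_ : ∀ j, n j ∈ W) (_ : ∀ j, W.card * d < n j)
    (_ : ∀ c : Fin r → k, DepthGE k (d + 1) (∑ j, c j • σ j) → c = 0)
    (c : Fin r → k) (_ : c ≠ 0), ∃ s, (∀ s', s' < s → ∑ j, c j • hs d (σ j) (n j) s' = 0) ∧
      ∑ j, c j • hs d (σ j) (n j) s ≠ 0 ∧ ∀ j, c j ≠ 0 → s + d < n j

/-- adapted bases -/
def S_AD : Prop := ∀ (k : Type u) [Field k] (r d : ℕ) (T : ℕ → (Fin r → k) →ₗ[k] BB k)
    (n : Fin r → ℕ)
    (_ : ∀ s c v, wc v (T s c) ≠ 0 → (FreeMonoid.toList v).sum = s)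
    (_ : ∀ c, c ≠ 0 → ∃ s, (∀ s', s' < s → T s' c = 0) ∧ T s c ≠ 0 ∧
      ∀ j, c j ≠ 0 → s + d < n j),
    ∃ (M M' : Matrix (Fin r) (Fin r) k) (s : Fin r → ℕ), M * M' = 1 ∧ M' * M = 1 ∧
      (∀ i s', s' < s i → T s' (M i) = 0) ∧
      (∀ c : Fin r → k, ∑ i, c i • T (s i) (M i) = 0 → c = 0) ∧
      (∀ i j, M i j ≠ 0 → s i + d < n j) ∧ (∀ j i, M' j i ≠ 0 → s i + d < n j)

/-- evaluation -/
def S_EV : Prop := ∀ (k : Type u) [Field k] (r d N : ℕ) (P : Fin r → Module.End k (BB k)[X])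
    (n s : Fin r → ℕ) (M M' : Matrix (Fin r) (Fin r) k) (L : Fin r → BB k) (_ : 1 ≤ d)
    (_ : M * M' = 1) (_ : M' * M = 1) (_ : ∀ i (F : (BB k)[X]), P i (X * F) = X * P i F)
    (_ : ∀ j, n j ≤ N)
    (_ : ∀ i, HasSym (∑ j, M i j • (LinearMap.mulLeft k (X ^ (N - n j)) ∘ₗ P j)) d
      (N - d - s i) (L i))
    (_ : ∀ G : FreeAlgebra k (Fin r), FreeAlgebra.lift k L G = 0 → G = 0)
    (_ : ∀ j i, M' j i ≠ 0 → s i + d < n j)
    (g : FreeAlgebra k (Fin r)) (m : ℕ) (_ : 1 ≤ m) (_ : Hm m g)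
    (_ : ∀ a, 1 ≤ a → hc (m * d) ((FreeAlgebra.lift k P g (1 : (BB k)[X])).coeff a) = 0), g = 0

end Pool.Agent.J4H43.MW
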