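import Pool.Agent.J4H43.MW.Stm

/-!
# Leading index sums of combinations of elements of several weights
-/

set_option autoImplicit false
set_option linter.unusedSectionVars false

namespace Pool.Agent.J4H43.MW

open Polynomial Pool.Agent.Helper392_GT Pool.Agent.J4H43.FR Pool.Agent.J4H43.SW

universe u

attribute [local instance 100] LieRing.ofAssociativeRing

section van

variable {k : Type u} [Field k] {r : ℕ}

theorem wt_D1 {n : ℕ} (hn : 2 ≤ n) {f : F2 k} (hf : f ∈ wt k n) : f ∈ D1 k := by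
  obtain ⟨n, rfl⟩ : ∃ n', n = n' + 2 := ⟨n - 2, by omega⟩
  change f ∈ Submodule.span k {v | ∃ u ∈ wt k (n + 1),
    v = ⁅(FreeLieAlgebra.of k 0 : F2 k), u⁆ ∨ v = ⁅(FreeLieAlgebra.of k 1 : F2 k), u⁆} at hf
  induction hf using Submodule.span_induction with
  | mem x hx =>
    obtain ⟨u, _, rfl | rfl⟩ := hx
    · exact mem_D1 _ _
    · exact mem_D1 _ _
  | zero => exact (D1 k).zero_mem
  | add a b _ _ ha hb => exact (D1 k).add_mem ha hb
  | smul c a _ ha => exact (D1 k).smul_mem c ha

theorem hs_trans {n d : ℕ} {σ : F2 k} (hn : 2 ≤ n) (hσ : σ ∈ wt k n) (s : ℕ) :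
    ((n : k) - d - s) • hs d σ n s = -pd (hs d σ n (s + 1)) := by
  rcases Nat.lt_trichotomy (s + d) n with h | h | h
  · have h1 := trans_lead (wt_D1 hn hσ) d (n - d - (s + 1))
    rw [hs, hs, if_pos (by omega), if_pos (by omega), ← h1,
      show n - d - (s + 1) + 1 = n - d - s by omega]
    congr 1
    have h2 : n = (n - d - (s + 1)) + d + s + 1 := by omega
    have h3 : (n : k) = ((n - d - (s + 1) : ℕ) : k) + d + s + 1 := by
      have h4 := congrArg (fun m : ℕ => (m : k)) h2
      simp only [Nat.cast_add, Nat.cast_one] at h4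
      exact h4
    rw [h3]; ring
  · have h3 : (n : k) - d - s = 0 := by
      rw [← h]; push_cast; ring
    rw [h3, zero_smul, hs, if_neg (by omega), map_zero, neg_zero]
  · rw [hs, hs, if_neg (by omega), if_neg (by omega), smul_zero, map_zero, neg_zero]

/-- the sums with powers of the weights -/
noncomputable def Tp (d : ℕ) (σ : Fin r → F2 k) (n : Fin r → ℕ) (c : Fin r → k) (i s : ℕ) : BB k :=
  ∑ j, (c j * (n j : k) ^ i) • hs d (σ j) (n j) s

theorem Tp_succ {d : ℕ} {σ : Fin r → F2 k} {n : Fin r → ℕ} (hn : ∀ j, 2 ≤ n j)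
    (hσ : ∀ j, σ j ∈ wt k (n j)) (c : Fin r → k) (i s : ℕ) :
    Tp d σ n c (i + 1) s = ((d : k) + s) • Tp d σ n c i s - pd (Tp d σ n c i (s + 1)) := by
  rw [Tp, Tp, Tp, Finset.smul_sum, map_sum, ← Finset.sum_sub_distrib]
  refine Finset.sum_congr rfl fun j _ => ?_
  rw [map_smul, sub_eq_add_neg, ← smul_neg, ← hs_trans (hn j) (hσ j) s, smul_smul, smul_smul,
    ← add_smul]
  congr 1
  ring

theorem Tp_zero {d : ℕ} {σ : Fin r → F2 k} {n : Fin r → ℕ} (hn : ∀ j, 2 ≤ n j)
    (hσ : ∀ j, σ j ∈ wt k (n j)) (c : Fin r → k) {s0 K : ℕ}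
    (h : ∀ t, s0 ≤ t → t < s0 + K → Tp d σ n c 0 t = 0) (i : ℕ) :
    ∀ t, s0 ≤ t → t + i < s0 + K → Tp d σ n c i t = 0 := by
  induction i with
  | zero => intro t h1 h2; exact h t h1 h2
  | succ i ih =>
    intro t h1 h2
    rw [Tp_succ hn hσ, ih t h1 (by omega), ih (t + 1) (by omega) (by omega), smul_zero, map_zero,
      sub_zero]

theorem Tp_poly {d : ℕ} {σ : Fin r → F2 k} {n : Fin r → ℕ} (hn : ∀ j, 2 ≤ n j)
    (hσ : ∀ j, σ j ∈ wt k (n j)) (c : Fin r → k) {s0 K : ℕ}
    (h : ∀ t, s0 ≤ t → t < s0 + K → Tp d σ n c 0 t = 0) (Q : k[X]) (hQ : Q.natDegree < K) :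
    ∑ j, (c j * Q.eval (n j : k)) • hs d (σ j) (n j) s0 = 0 := by
  have h1 : ∀ j, (c j * Q.eval (n j : k)) • hs d (σ j) (n j) s0 =
      ∑ i ∈ Finset.range K, Q.coeff i • ((c j * (n j : k) ^ i) • hs d (σ j) (n j) s0) := by
    intro j
    rw [eval_eq_sum_range' hQ, Finset.mul_sum, Finset.sum_smul]
    refine Finset.sum_congr rfl fun i _ => ?_
    rw [smul_smul]
    congr 1
    ring
  rw [Finset.sum_congr rfl fun j _ => h1 j, Finset.sum_comm]
  refine Finset.sum_eq_zero fun i hi => ?_
  rw [← Finset.smul_sum]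
  have h2 := Tp_zero hn hσ c h i s0 le_rfl (by rw [Finset.mem_range] at hi; omega)
  rw [Tp] at h2
  rw [h2, smul_zero]

end van

theorem t_VAN (kb : S_KB.{u}) : S_VAN.{u} := by
  classical
  intro k _ _ r d σ n W hd hσ hn hdep hnW hW hli c hcne
  -- the part of one weight
  have key : ∀ j0, c j0 ≠ 0 → ∃ t, Tp d σ n c 0 t ≠ 0 ∧ t + d < n j0 := by
    intro j0 hj0
    set w0 := n j0 with hw0
    set c' : Fin r → k := fun j => if n j = w0 then c j else 0 with hc'
    have hc'0 : c' ≠ 0 := by
      intro h0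
      apply hj0
      have := congrFun h0 j0
      rw [hc'] at this
      simp only [← hw0, if_true, Pi.zero_apply] at this
      exact this
    set f : F2 k := ∑ j, c' j • σ j with hf
    have hfw : f ∈ wt k w0 := by
      refine Submodule.sum_mem _ fun j _ => ?_
      by_cases h : n j = w0
      · rw [← h]; exact Submodule.smul_mem _ _ (hσ j)
      · have : c' j = 0 := by rw [hc']; simp only [if_neg h]
        rw [this, zero_smul]; exact Submodule.zero_mem _
    obtain ⟨e, he, hwe⟩ := kb k w0 d f hfw (hn j0) (depth_sum hdep c')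
      (fun h => hc'0 (hli c' h))
    have heW : W.card ≤ e := by
      have h1 : W.card * d < (e + 1) * d := lt_of_lt_of_le (hW j0) hwe
      have h2 := Nat.lt_of_mul_lt_mul_right h1
      omega
    have hew : e + d ≤ w0 := by
      obtain ⟨v, hv⟩ : ∃ v, wc v (hc d ((Ph f).coeff e)) ≠ 0 := by
        by_contra hcon
        push Not at hcon
        exact he (wc_ext hcon)
      rw [wc_hc] at hv
      by_cases hl : v.length = d
      · rw [if_pos hl] at hv
        have := t_SW3 k w0 f hfw e v hv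
        omega
      · rw [if_neg hl] at hv
        exact absurd rfl hv
    have hval : ∑ j, c' j • hs d (σ j) (n j) (w0 - d - e) = hc d ((Ph f).coeff e) := by
      rw [hf, hc_Ph_sum]
      refine Finset.sum_congr rfl fun j _ => ?_
      by_cases h : n j = w0
      · rw [hs, h, if_pos (by omega), show w0 - d - (w0 - d - e) = e by omega]
      · have : c' j = 0 := by rw [hc']; simp only [if_neg h]
        rw [this, zero_smul, zero_smul]
    by_contra hcon
    push Not at hcon
    apply he
    rw [← hval]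
    have hvan : ∀ t, w0 - d - e ≤ t → t < w0 - d - e + W.card → Tp d σ n c 0 t = 0 := by
      intro t h1 h2
      by_contra h3
      have h4 := hcon t h3
      omega
    set Q : k[X] := ∏ w ∈ W.erase w0, (X - C (w : k)) with hQ
    have hdeg : Q.natDegree < W.card := by
      rw [hQ, natDegree_prod_of_monic _ _ (fun w _ => monic_X_sub_C _)]
      simp only [natDegree_X_sub_C]
      rw [Finset.sum_const, smul_eq_mul, mul_one, Finset.card_erase_of_mem (hnW j0)]
      have : 1 ≤ W.card := Finset.card_pos.mpr ⟨_, hnW j0⟩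
      omega
    have h5 := Tp_poly hn hσ c hvan Q hdeg
    have hQ0 : Q.eval (w0 : k) ≠ 0 := by
      rw [hQ, eval_prod, Finset.prod_ne_zero_iff]
      intro w hw
      rw [eval_sub, eval_X, eval_C, sub_ne_zero]
      intro h6
      exact (Finset.ne_of_mem_erase hw) (Nat.cast_injective h6).symm
    have h6 : ∑ j, (c j * Q.eval (n j : k)) • hs d (σ j) (n j) (w0 - d - e) =
        Q.eval (w0 : k) • ∑ j, c' j • hs d (σ j) (n j) (w0 - d - e) := by
      rw [Finset.smul_sum]
      refine Finset.sum_congr rfl fun j _ => ?_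
      by_cases h : n j = w0
      · have : c' j = c j := by rw [hc']; simp only [if_pos h]
        rw [this, smul_smul, h, mul_comm]
      · have h7 : c' j = 0 := by rw [hc']; simp only [if_neg h]
        have h8 : Q.eval (n j : k) = 0 := by
          rw [hQ, eval_prod]
          refine Finset.prod_eq_zero (Finset.mem_erase.mpr ⟨h, hnW j⟩) ?_
          rw [eval_sub, eval_X, eval_C, sub_self]
        rw [h7, h8, mul_zero, zero_smul, smul_zero]
    rw [h6] at h5
    rcases smul_eq_zero.mp h5 with h7 | h7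
    · exact absurd h7 hQ0
    · exact h7
  have hT0 : ∀ t, Tp d σ n c 0 t = ∑ j, c j • hs d (σ j) (n j) t := fun t => by
    rw [Tp]
    exact Finset.sum_congr rfl fun j _ => by rw [pow_zero, mul_one]
  obtain ⟨j0, hj0⟩ : ∃ j, c j ≠ 0 := by
    by_contra hcon
    push Not at hcon
    exact hcne (funext hcon)
  have hex : ∃ t, Tp d σ n c 0 t ≠ 0 := by
    obtain ⟨t, ht, _⟩ := key j0 hj0
    exact ⟨t, ht⟩
  refine ⟨Nat.find hex, fun s' hs' => ?_, ?_, fun j hj => ?_⟩
  · rw [← hT0]
    by_contra h0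
    exact Nat.find_min hex hs' h0
  · rw [← hT0]
    exact Nat.find_spec hex
  · obtain ⟨t, ht, ht2⟩ := key j hj
    have := Nat.find_min' hex ht
    omega

end Pool.Agent.J4H43.MW
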